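import Pool.Agent.U337.EM.Stm

/-!
# Project EM, package Z: isomorphic enveloping algebras have abelianizations of the same dimension
-/

set_option autoImplicit false

namespace Pool.Agent.U375.EM

open Pool.Agent.U337.EM

attribute [local instance 100] LieRing.ofAssociativeRing

/-- the span of the commutators -/
abbrev Dd (F L : Type) [Field F] [LieRing L] [LieAlgebra F L] : Submodule F L :=
  Submodule.span F {z : L | ∃ a b : L, ⁅a, b⁆ = z}

variable {F : Type} [Field F] {L H : Type} [LieRing L] [LieAlgebra F L] [LieRing H] [LieAlgebra F H]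

lemma mem_ann {b : Module.Dual F L} : b ∈ (Dd F L).dualAnnihilator ↔ ∀ x y : L, b ⁅x, y⁆ = 0 := by
  rw [Submodule.mem_dualAnnihilator]
  constructor
  · intro h x y
    exact h _ (Submodule.subset_span ⟨x, y, rfl⟩)
  · intro h w hw
    induction hw using Submodule.span_induction with
    | mem x hx =>
      obtain ⟨a, c, rfl⟩ := hx
      exact h a c
    | zero => exact map_zero b
    | add x y _ _ hx hy => rw [map_add, hx, hy, add_zero]
    | smul c x _ hx => rw [map_smul, hx, smul_zero]

/-- the linear form on `L` given by a linear form on the enveloping algebra of `H` -/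
noncomputable def pull (φ : UniversalEnvelopingAlgebra F L ≃ₐ[F] UniversalEnvelopingAlgebra F H)
    (δ : UniversalEnvelopingAlgebra F H →ₗ[F] F) : Module.Dual F L where
  toFun x := δ (φ (UniversalEnvelopingAlgebra.ι F x))
  map_add' x y := by rw [map_add, map_add, map_add]
  map_smul' c x := by rw [map_smul, map_smul, map_smul, RingHom.id_apply]

lemma key (hA : S_A) (φ : UniversalEnvelopingAlgebra F L ≃ₐ[F] UniversalEnvelopingAlgebra F H)
    (χ : UniversalEnvelopingAlgebra F H →ₐ[F] F) :
    ∃ f : (Dd F H).dualAnnihilator →ₗ[F] (Dd F L).dualAnnihilator, Function.Injective f := by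
  have hH := hA F H F F χ χ
  have hL := hA F L F F (χ.comp φ.toAlgHom) (χ.comp φ.toAlgHom)
  have h1 : ∀ b : (Dd F H).dualAnnihilator, ∃ δ : UniversalEnvelopingAlgebra F H →ₗ[F] F,
      (∀ u v, δ (u * v) = χ u • δ v + χ v • δ u) ∧
        ∀ x, δ (UniversalEnvelopingAlgebra.ι F x) = b.1 x := by
    intro b
    refine hH.1 b.1 fun x y => ?_
    rw [sub_self, sub_self, zero_smul, zero_smul, sub_zero]
    exact mem_ann.1 b.2 x y
  choose D hD1 hD2 using h1
  have hadd : ∀ b c, D (b + c) = D b + D c := by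
    intro b c
    refine hH.2 _ _ (hD1 _) (fun u v => ?_) fun x => ?_
    · simp only [LinearMap.add_apply, hD1, smul_eq_mul]
      ring
    · rw [hD2, LinearMap.add_apply, hD2, hD2]
      rfl
  have hsmul : ∀ (r : F) b, D (r • b) = r • D b := by
    intro r b
    refine hH.2 _ _ (hD1 _) (fun u v => ?_) fun x => ?_
    · simp only [LinearMap.smul_apply, hD1, smul_eq_mul]
      ring
    · rw [hD2, LinearMap.smul_apply, hD2]
      rfl
  have hmem : ∀ b, pull φ (D b) ∈ (Dd F L).dualAnnihilator := by
    intro b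
    refine mem_ann.2 fun x y => ?_
    show D b (φ (UniversalEnvelopingAlgebra.ι F ⁅x, y⁆)) = 0
    rw [LieHom.map_lie, LieRing.of_associative_ring_bracket, map_sub, map_mul, map_mul, map_sub,
      hD1, hD1]
    simp only [smul_eq_mul]
    ring
  refine ⟨{ toFun := fun b => ⟨pull φ (D b), hmem b⟩, map_add' := fun b c => ?_,
            map_smul' := fun r b => ?_ }, ?_⟩
  · apply Subtype.ext
    ext x
    show D (b + c) (φ (UniversalEnvelopingAlgebra.ι F x)) =
      D b (φ (UniversalEnvelopingAlgebra.ι F x)) + D c (φ (UniversalEnvelopingAlgebra.ι F x))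
    rw [hadd, LinearMap.add_apply]
  · apply Subtype.ext
    ext x
    show D (r • b) (φ (UniversalEnvelopingAlgebra.ι F x)) =
      r • D b (φ (UniversalEnvelopingAlgebra.ι F x))
    rw [hsmul, LinearMap.smul_apply]
  · rw [injective_iff_map_eq_zero]
    intro b hb
    have h2 : ∀ x : L, D b (φ (UniversalEnvelopingAlgebra.ι F x)) = 0 := by
      intro x
      have h3 := congrArg (fun z : (Dd F L).dualAnnihilator => z.1 x) hb
      exact h3
    have h3 : (D b).comp φ.toLinearMap = 0 := by
      refine hL.2 _ _ (fun u v => ?_) (fun u v => ?_) fun x => ?_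
      · show D b (φ (u * v)) = χ (φ u) • D b (φ v) + χ (φ v) • D b (φ u)
        rw [map_mul, hD1]
      · simp
      · show D b (φ (UniversalEnvelopingAlgebra.ι F x)) = 0
        exact h2 x
    apply Subtype.ext
    ext x
    show b.1 x = 0
    rw [← hD2]
    have h4 := LinearMap.congr_fun h3 (φ.symm (UniversalEnvelopingAlgebra.ι F x))
    have h5 : ((D b).comp φ.toLinearMap) (φ.symm (UniversalEnvelopingAlgebra.ι F x)) =
        D b (UniversalEnvelopingAlgebra.ι F x) := by
      show D b (φ (φ.symm _)) = _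
      rw [AlgEquiv.apply_symm_apply]
    rw [h5] at h4
    exact h4

lemma exists_ab [Module.Finite F (L ⧸ Dd F L)] {d : ℕ} (hd : Module.finrank F (L ⧸ Dd F L) = d) :
    ∃ ab : L →ₗ[F] (Fin d → F), IsAb ab := by
  subst hd
  refine ⟨(Module.finBasis F (L ⧸ Dd F L)).equivFun.toLinearMap.comp (Dd F L).mkQ, ?_, fun x => ?_⟩
  · exact (Module.finBasis F (L ⧸ Dd F L)).equivFun.surjective.comp (Submodule.mkQ_surjective _)
  · show (Module.finBasis F (L ⧸ Dd F L)).equivFun ((Dd F L).mkQ x) = 0 ↔ _
    rw [LinearEquiv.map_eq_zero_iff, Submodule.mkQ_apply, Submodule.Quotient.mk_eq_zero]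

theorem t_Z (hA : S_A) : S_Z := by
  intro F _ L H _ _ _ _ _ ⟨φ⟩
  let χ : UniversalEnvelopingAlgebra F H →ₐ[F] F :=
    UniversalEnvelopingAlgebra.lift F (0 : H →ₗ⁅F⁆ F)
  obtain ⟨f, hf⟩ := key hA φ χ
  obtain ⟨g, hg⟩ := key hA φ.symm (χ.comp φ.toAlgHom)
  have : Module.Finite F (Dd F H).dualAnnihilator := Module.Finite.of_injective f hf
  have e1 := (Dd F H).dualQuotEquivDualAnnihilator
  have e2 := (Dd F L).dualQuotEquivDualAnnihilator
  have h1 : Module.Finite F (Module.Dual F (H ⧸ Dd F H)) := Module.Finite.equiv e1.symm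
  have h2 : Module.Finite F (H ⧸ Dd F H) := (Module.finite_dual_iff F).1 h1
  have h3 : Module.finrank F (H ⧸ Dd F H) = Module.finrank F (L ⧸ Dd F L) := by
    rw [← Subspace.dual_finrank_eq (K := F) (V := H ⧸ Dd F H),
      ← Subspace.dual_finrank_eq (K := F) (V := L ⧸ Dd F L), e1.finrank_eq, e2.finrank_eq]
    exact le_antisymm (LinearMap.finrank_le_finrank_of_injective hf)
      (LinearMap.finrank_le_finrank_of_injective hg)
  obtain ⟨a, ha⟩ := exists_ab (F := F) (L := L) rfl
  obtain ⟨b, hb⟩ := exists_ab (F := F) (L := H) h3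
  exact ⟨_, a, b, ha, hb⟩

end Pool.Agent.U375.EM
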